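import Pool.Agent.helper71.EP.SpecE

set_option autoImplicit false

open Finset
open scoped Real
open Pool.Agent.helper74.TG

noncomputable section

namespace Pool.Agent.EP

theorem ECP_m (K : ℕ) : ∃ m : ℕ, 0 < m ∧ 24 ∣ m ∧ ∀ p : ℕ, p.Prime → p ≤ K → p ∣ m := by
  refine ⟨24 * K.factorial, Nat.mul_pos (by norm_num) (Nat.factorial_pos K), Dvd.intro _ rfl, ?_⟩
  intro p hp hpK
  exact Dvd.dvd.mul_left (Nat.dvd_factorial hp.pos hpK) 24

/-- the arithmetic of the change of variables -/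
theorem ECP_arith (m t y : ℕ) (hm : 0 < m) (h : 4 * y + 2 ≤ hq m t) :
    m * (hq m t - 1 - 4 * y) + (m - 1) + 4 * (m * y + 1) = 3 * (m * t + 1) ^ 2 ∧
      1 ≤ hq m t - 1 - 4 * y := by
  obtain ⟨x, hx⟩ : ∃ x, hq m t = x + 1 + 4 * y := ⟨hq m t - 1 - 4 * y, by omega⟩
  have h1 : hq m t - 1 - 4 * y = x := by omega
  rw [h1]
  refine ⟨?_, by omega⟩
  unfold hq at hx
  obtain ⟨n, rfl⟩ : ∃ n, m = n + 1 := ⟨m - 1, by omega⟩
  rw [Nat.add_sub_cancel]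
  have h2 : (n + 1) * (3 * (n + 1) * t ^ 2 + 6 * t) = (n + 1) * (x + 1 + 4 * y) := by rw [hx]
  nlinarith [h2]

theorem ECP_count (m T U : ℕ) (hm : 0 < m) (h24 : 24 ∣ m) (hTU : m * T + 1 ≤ U) :
    #(Sol m T) ≤ #(Pq U) + 5 * U ^ 2 := by
  classical
  have hTU' : T ≤ U := by
    have : T ≤ m * T := Nat.le_mul_of_pos_left T hm
    omega
  have hU : 1 ≤ U := by omega
  set B1 : Finset (ℕ × ℕ) := {z ∈ Sol m T | m * z.2 + 1 ≤ 2 * (m * z.1 + 1)} with hB1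
  set B2 : Finset (ℕ × ℕ) :=
    {z ∈ Sol m T | m * (hq m z.1 - 1 - 4 * z.2) + (m - 1) ≤ 2 * (m * z.1 + 1)} with hB2
  set G : Finset (ℕ × ℕ) := {z ∈ Sol m T | 2 * (m * z.1 + 1) < m * z.2 + 1 ∧
    2 * (m * z.1 + 1) < m * (hq m z.1 - 1 - 4 * z.2) + (m - 1)} with hG
  have hsub : Sol m T ⊆ G ∪ (B1 ∪ B2) := by
    intro z hz
    rw [mem_union, mem_union]
    by_cases h1 : m * z.2 + 1 ≤ 2 * (m * z.1 + 1)
    · exact Or.inr (Or.inl (mem_filter.mpr ⟨hz, h1⟩))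
    · by_cases h2 : m * (hq m z.1 - 1 - 4 * z.2) + (m - 1) ≤ 2 * (m * z.1 + 1)
      · exact Or.inr (Or.inr (mem_filter.mpr ⟨hz, h2⟩))
      · exact Or.inl (mem_filter.mpr ⟨hz, not_le.mp h1, not_le.mp h2⟩)
  have hmem : ∀ z ∈ Sol m T, 0 < z.1 ∧ z.1 ≤ T ∧ 0 < z.2 ∧ 4 * z.2 + 2 ≤ hq m z.1 ∧
      (m * (hq m z.1 - 1 - 4 * z.2) + (m - 1)).Prime ∧ (m * z.2 + 1).Prime := by
    intro z hz
    unfold Sol at hz
    rw [mem_filter, mem_product, mem_Ioc, mem_Ioc] at hz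
    exact ⟨hz.1.1.1, hz.1.1.2, hz.1.2.1, hz.2.1, hz.2.2.1, hz.2.2.2⟩
  have hu : ∀ z ∈ Sol m T, m * z.1 + 1 ≤ U := by
    intro z hz
    have h1 := (hmem z hz).2.1
    have h2 : m * z.1 ≤ m * T := Nat.mul_le_mul_left m h1
    omega
  have hc1 : #B1 ≤ 2 * U ^ 2 := by
    have h1 : B1 ⊆ Ioc 0 U ×ˢ Ioc 0 (2 * U) := by
      intro z hz
      rw [hB1, mem_filter] at hz
      obtain ⟨hz1, hz2⟩ := hz
      have h2 := hmem z hz1
      have h3 := hu z hz1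
      rw [mem_product, mem_Ioc, mem_Ioc]
      have h4 : z.2 ≤ m * z.2 := Nat.le_mul_of_pos_left _ hm
      refine ⟨⟨h2.1, h2.2.1.trans hTU'⟩, h2.2.2.1, ?_⟩
      omega
    calc #B1 ≤ #(Ioc 0 U ×ˢ Ioc 0 (2 * U)) := card_le_card h1
      _ = 2 * U ^ 2 := by
        rw [card_product, Nat.card_Ioc, Nat.card_Ioc]
        simp only [Nat.sub_zero]
        ring
  have hc2 : #B2 ≤ 3 * U ^ 2 := by
    have h1 : #B2 ≤ #(Ioc 0 U ×ˢ Ioc 0 (3 * U)) := by
      apply card_le_card_of_injOn (fun z : ℕ × ℕ => (z.1, hq m z.1 - 1 - 4 * z.2))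
      · intro z hz
        rw [mem_coe] at hz
        rw [hB2, mem_filter] at hz
        obtain ⟨hz1, hz2⟩ := hz
        have h2 := hmem z hz1
        have h3 := hu z hz1
        obtain ⟨-, h5⟩ := ECP_arith m z.1 z.2 hm h2.2.2.2.1
        have h4 : hq m z.1 - 1 - 4 * z.2 ≤ m * (hq m z.1 - 1 - 4 * z.2) :=
          Nat.le_mul_of_pos_left _ hm
        rw [mem_coe, mem_product, mem_Ioc, mem_Ioc]
        dsimp only
        refine ⟨⟨h2.1, h2.2.1.trans hTU'⟩, h5, ?_⟩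
        omega
      · intro z hz w hw hzw
        rw [mem_coe] at hz hw
        rw [hB2, mem_filter] at hz hw
        have h2 := (hmem z hz.1).2.2.2.1
        have h3 := (hmem w hw.1).2.2.2.1
        simp only [Prod.mk.injEq] at hzw
        obtain ⟨h4, h5⟩ := hzw
        rw [← h4] at h3 h5
        refine Prod.ext h4 ?_
        omega
    calc #B2 ≤ #(Ioc 0 U ×ˢ Ioc 0 (3 * U)) := h1
      _ = 3 * U ^ 2 := by
        rw [card_product, Nat.card_Ioc, Nat.card_Ioc]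
        simp only [Nat.sub_zero]
        ring
  have hc3 : #G ≤ #(Pq U) := by
    apply card_le_card_of_injOn (fun z : ℕ × ℕ => (m * z.1 + 1, m * z.2 + 1))
    · intro z hz
      rw [mem_coe] at hz
      rw [hG, mem_filter] at hz
      obtain ⟨hz1, hz2, hz3⟩ := hz
      obtain ⟨h1, h2, h3, h4, h5, h6⟩ := hmem z hz1
      have h7 := hu z hz1
      obtain ⟨h8, -⟩ := ECP_arith m z.1 z.2 hm h4
      rw [mem_coe]
      unfold Pq
      rw [mem_filter, mem_product, mem_Ioc, mem_range]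
      dsimp only
      obtain ⟨k, hk⟩ := h24
      have h9 : (m * z.1 + 1) ^ 2 ≤ U ^ 2 := Nat.pow_le_pow_left h7 2
      refine ⟨⟨⟨Nat.succ_pos _, h7⟩, by omega⟩, ?_, ?_, h6, hz2, by omega, ?_⟩
      · rw [hk, show 24 * k * z.1 + 1 = 1 + 2 * (12 * k * z.1) by ring, Nat.add_mul_mod_self_left]
      · rw [hk, show 24 * k * z.2 + 1 = 1 + 24 * (k * z.2) by ring, Nat.add_mul_mod_self_left]
      · have h10 : 3 * (m * z.1 + 1) ^ 2 - 4 * (m * z.2 + 1) =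
            m * (hq m z.1 - 1 - 4 * z.2) + (m - 1) := by omega
        rw [h10]
        exact h5
    · intro z _ w _ hzw
      simp only [Prod.mk.injEq, Nat.add_right_cancel_iff] at hzw
      exact Prod.ext (Nat.eq_of_mul_eq_mul_left hm hzw.1) (Nat.eq_of_mul_eq_mul_left hm hzw.2)
  calc #(Sol m T) ≤ #(G ∪ (B1 ∪ B2)) := card_le_card hsub
    _ ≤ #G + #(B1 ∪ B2) := card_union_le _ _
    _ ≤ #G + (#B1 + #B2) := Nat.add_le_add_left (card_union_le _ _) _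
    _ ≤ #(Pq U) + (2 * U ^ 2 + 3 * U ^ 2) := by omega
    _ = #(Pq U) + 5 * U ^ 2 := by ring

theorem ECP_log (C : ℝ) (hC : 0 < C) : ∃ U₀ : ℕ, ∀ U : ℕ, U₀ ≤ U → C * Real.log U ^ 2 ≤ U := by
  have h1 : (fun x : ℝ => Real.log x ^ 2) =o[Filter.atTop] (fun x : ℝ => x) := by
    have := isLittleO_log_rpow_rpow_atTop (s := 1) 2 one_pos
    simpa using this
  have h2 := (h1.bound (inv_pos.mpr hC)).natCast_atTop
  rw [Filter.eventually_atTop] at h2
  obtain ⟨U₀, hU₀⟩ := h2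
  refine ⟨U₀, fun U hU => ?_⟩
  have h3 := hU₀ U hU
  rw [Real.norm_of_nonneg (sq_nonneg _), Real.norm_of_nonneg (Nat.cast_nonneg _)] at h3
  rw [inv_mul_eq_div, le_div_iff₀ hC] at h3
  linarith

/-- ECP -/
theorem ECP (hECT : ECT_stmt) : ECP_stmt := by
  obtain ⟨m, hm, h24, hmp⟩ := ECP_m (10 ^ 8)
  obtain ⟨T₀, hT₀⟩ := hECT m hm h24 hmp
  have hmR : (0 : ℝ) < m := by exact_mod_cast hm
  have hmR1 : (1 : ℝ) ≤ m := by exact_mod_cast hm
  obtain ⟨U₁, hU₁⟩ := ECP_log (1000 * (m : ℝ) ^ 3) (by positivity)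
  refine ⟨1 / (200 * (m : ℝ) ^ 3), by positivity, max U₁ (4 * m * (T₀ + 2)), ?_⟩
  intro U hU
  have hUa : U₁ ≤ U := le_trans (le_max_left _ _) hU
  have hUb : 4 * m * (T₀ + 2) ≤ U := le_trans (le_max_right _ _) hU
  set T : ℕ := (U - 1) / m with hT
  have hU4 : 4 * m ≤ U := by
    have : 4 * m * 1 ≤ 4 * m * (T₀ + 2) := Nat.mul_le_mul_left _ (by omega)
    omega
  have hU1 : 1 ≤ U := by omega
  have hTm : m * T + 1 ≤ U := by
    have := Nat.mul_div_le (U - 1) m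
    rw [← hT] at this
    omega
  have hTlow : U ≤ m * T + m := by
    have h1 := Nat.lt_mul_div_succ (U - 1) hm
    have h2 : m * ((U - 1) / m + 1) = m * T + m := by rw [hT]; ring
    omega
  have hTT : T₀ + 2 ≤ T := by
    have h1 : m * (T₀ + 3) ≤ m * T + m := by
      have : m * (T₀ + 3) ≤ 4 * m * (T₀ + 2) := by nlinarith
      omega
    have h2 : m * (T₀ + 3) ≤ m * (T + 1) := by
      rw [Nat.mul_add m T 1, Nat.mul_one]
      exact h1
    have h3 := Nat.le_of_mul_le_mul_left h2 hm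
    omega
  have hTU : T ≤ U := by
    have : T ≤ m * T := Nat.le_mul_of_pos_left T hm
    omega
  have h1 := hT₀ T (by omega)
  have h2 := ECP_count m T U hm h24 hTm
  have h2R : (#(Sol m T) : ℝ) ≤ #(Pq U) + 5 * (U : ℝ) ^ 2 := by exact_mod_cast h2
  have hTR : (2 : ℝ) ≤ T := by
    have : 2 ≤ T := by omega
    exact_mod_cast this
  have hTUR : (T : ℝ) ≤ U := by exact_mod_cast hTU
  have hlogT : 0 < Real.log T := Real.log_pos (by linarith)
  have hlogU : Real.log T ≤ Real.log U := Real.log_le_log (by linarith) hTUR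
  have hlogU0 : 0 < Real.log U := lt_of_lt_of_le hlogT hlogU
  have hUT : (U : ℝ) ≤ 2 * m * T := by
    have h3 : (U : ℝ) ≤ m * T + m := by exact_mod_cast hTlow
    nlinarith
  have hUR : (0 : ℝ) < U := by linarith
  have h4 : (U : ℝ) ^ 3 / (96 * m ^ 3 * Real.log U ^ 2) ≤ (T : ℝ) ^ 3 / (12 * Real.log T ^ 2) := by
    rw [div_le_div_iff₀ (by positivity) (by positivity)]
    have h5 : (U : ℝ) ^ 3 ≤ (2 * m * T) ^ 3 := pow_le_pow_left₀ hUR.le hUT 3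
    have h6 : Real.log T ^ 2 ≤ Real.log U ^ 2 := pow_le_pow_left₀ hlogT.le hlogU 2
    calc (U : ℝ) ^ 3 * (12 * Real.log T ^ 2) ≤ (2 * m * T) ^ 3 * (12 * Real.log U ^ 2) := by
          apply mul_le_mul h5 _ (by positivity) (by positivity)
          linarith
      _ = (T : ℝ) ^ 3 * (96 * m ^ 3 * Real.log U ^ 2) := by ring
  have h7 := hU₁ U hUa
  have h8 : 5 * (U : ℝ) ^ 2 ≤ (U : ℝ) ^ 3 / (200 * m ^ 3 * Real.log U ^ 2) := by
    rw [le_div_iff₀ (by positivity)]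
    calc 5 * (U : ℝ) ^ 2 * (200 * m ^ 3 * Real.log U ^ 2) =
          (U : ℝ) ^ 2 * (1000 * (m : ℝ) ^ 3 * Real.log U ^ 2) := by ring
      _ ≤ (U : ℝ) ^ 2 * U := mul_le_mul_of_nonneg_left h7 (by positivity)
      _ = (U : ℝ) ^ 3 := by ring
  have h9 : 1 / (200 * (m : ℝ) ^ 3) * (U : ℝ) ^ 3 / Real.log U ^ 2 =
      (U : ℝ) ^ 3 / (m ^ 3 * Real.log U ^ 2) * (1 / 200) := by
    field_simp
  have h10 : (U : ℝ) ^ 3 / (96 * m ^ 3 * Real.log U ^ 2) =
      (U : ℝ) ^ 3 / (m ^ 3 * Real.log U ^ 2) * (1 / 96) := by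
    field_simp
  have h11 : (U : ℝ) ^ 3 / (200 * m ^ 3 * Real.log U ^ 2) =
      (U : ℝ) ^ 3 / (m ^ 3 * Real.log U ^ 2) * (1 / 200) := by
    field_simp
  have h12 : 0 ≤ (U : ℝ) ^ 3 / (m ^ 3 * Real.log U ^ 2) := by positivity
  rw [h9]
  rw [h10] at h4
  rw [h11] at h8
  nlinarith

end Pool.Agent.EP
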